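import Mathlib
import Pool.Agent.H14.Walsh2

set_option autoImplicit false

namespace Pool.Agent.Results.MP_b298ef_co.OddMult

open Pool.Agent.H14.ApnDefs

theorem result (n : ℕ) (hn : 3 ≤ n) (F : V n → V n) (hF : APN F) (hP : Plateaued F)
    (p : V n × V n) (hp : p ∉ graph F) : Odd (mult F p) :=
  Pool.Agent.H14.Walsh.odd_mult hn hF hP p.1 p.2 fun e =>
    hp (Finset.mem_image.2 ⟨p.1, Finset.mem_univ _, Prod.ext rfl e.symm⟩)

end Pool.Agent.Results.MP_b298ef_co.OddMult
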